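import Pool.Agent.helper53.ORT.Spec

/-!
# MP_561ff4_al, project ort, row LRB: lower bound for reflections
-/

set_option autoImplicit false

namespace Pool.Agent.ORT

open Module Pool.Agent.GS

noncomputable section

/-- a linear permutation of prime order `r`, `r ≠ 0` in `F`: `r` divides `q^i - 1`, `i` the dimension of the image of
`g - 1` -/
theorem LRB_order {F V : Type} [Field F] [Finite F] [AddCommGroup V] [Module F V]
    [FiniteDimensional F V] (g : Equiv.Perm V) (hg : Lin F g) (r : ℕ) (hr : r.Prime)
    (hrF : ¬ r ∣ Nat.card F) (hgr : g ^ r = 1) (hg1 : g ≠ 1) (S : Submodule F V)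
    (hS : ∀ v, g v - v ∈ S) :
    ∃ i, 1 ≤ i ∧ i ≤ finrank F S ∧ r ∣ Nat.card F ^ i - 1 := by
  classical
  have hrp : Fact r.Prime := ⟨hr⟩
  have hVfin : Finite V := Module.finite_of_finite F
  set G : V →ₗ[F] V :=
    { toFun := g
      map_add' := hg.1
      map_smul' := hg.2 } with hG
  have hGa : ∀ v, G v = g v := fun v => rfl
  set W : Submodule F V := LinearMap.range (G - LinearMap.id) with hW
  have hWm : ∀ v, g v - v ∈ W := by
    intro v
    rw [hW, LinearMap.mem_range]
    exact ⟨v, rfl⟩
  have hWS : W ≤ S := by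
    intro w hw
    rw [hW, LinearMap.mem_range] at hw
    obtain ⟨v, rfl⟩ := hw
    exact hS v
  have hr0 : (r : F) ≠ 0 := by
    intro h0
    obtain ⟨p, hp⟩ := CharP.exists F
    have hpp : p.Prime := (CharP.char_is_prime_or_zero F p).resolve_right (CharP.char_ne_zero_of_finite F p)
    have h1 : p ∣ r := (CharP.cast_eq_zero_iff F p r).1 h0
    have h2 : p = r := (Nat.prime_dvd_prime_iff_eq hpp hr).1 h1
    subst h2
    apply hrF
    have : Fintype F := Fintype.ofFinite F
    obtain ⟨n, hn1, hn2⟩ := FiniteField.card F p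
    rw [Nat.card_eq_fintype_card, hn2]
    exact dvd_pow_self p n.2.ne'
  have hsub : ∀ x y, g (x - y) = g x - g y := fun x y => map_sub G x y
  have hfix : ∀ (j : ℕ) (v : V), g v = v → (g ^ j) v = v := by
    intro j v hv
    induction j with
    | zero => rfl
    | succ j ih => rw [pow_succ, Equiv.Perm.mul_apply, hv, ih]
  have hinf : ∀ v, g v = v → v ∈ W → v = 0 := by
    intro v hv hw
    rw [hW, LinearMap.mem_range] at hw
    obtain ⟨w, hw⟩ := hw
    have hvw : v = g w - w := by
      rw [← hw, LinearMap.sub_apply, LinearMap.id_apply, hGa]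
    have h1 : ∑ j ∈ Finset.range r, (g ^ j) v = (r : F) • v := by
      rw [Finset.sum_congr rfl fun j _ => hfix j v hv, Finset.sum_const, Finset.card_range,
        Nat.cast_smul_eq_nsmul]
    have hpsub : ∀ (j : ℕ) (x y : V), (g ^ j) (x - y) = (g ^ j) x - (g ^ j) y := by
      intro j
      induction j with
      | zero => intro x y; rfl
      | succ j ih =>
        intro x y
        rw [pow_succ, Equiv.Perm.mul_apply, Equiv.Perm.mul_apply, Equiv.Perm.mul_apply, hsub, ih]
    have h2 : ∑ j ∈ Finset.range r, (g ^ j) v = 0 := by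
      have h3 : ∀ j ∈ Finset.range r, (g ^ j) v = (g ^ (j + 1)) w - (g ^ j) w := by
        intro j _
        rw [hvw, hpsub, pow_succ, Equiv.Perm.mul_apply]
      rw [Finset.sum_congr rfl h3, Finset.sum_range_sub (fun j => (g ^ j) w), hgr]
      simp
    rw [h2] at h1
    exact (smul_eq_zero.1 h1.symm).resolve_left hr0
  have hcardW : Nat.card W = Nat.card F ^ finrank F W := Module.natCard_eq_pow_finrank (K := F)
  have hWne : ∃ w : W, w ≠ 0 := by
    by_contra h
    push Not at h
    apply hg1
    ext v
    have h1 := h ⟨g v - v, hWm v⟩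
    have h2 : g v - v = 0 := congrArg Subtype.val h1
    rw [Equiv.Perm.one_apply]
    exact sub_eq_zero.1 h2
  have hn1 : 1 ≤ finrank F W := by
    rcases Nat.eq_zero_or_pos (finrank F W) with h | h
    · exfalso
      rw [h, pow_zero] at hcardW
      obtain ⟨w, hw⟩ := hWne
      have hsub : Subsingleton W := (Nat.card_eq_one_iff_unique.1 hcardW).1
      exact hw (Subsingleton.elim _ _)
    · exact h
  refine ⟨finrank F W, hn1, Submodule.finrank_mono hWS, ?_⟩
  have hgW : ∀ w : W, g w ∈ W := by
    intro w
    have h1 : g w = (g w - w) + w := by abel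
    rw [h1]
    exact W.add_mem (hWm _) w.2
  let f : Function.End W := fun w => ⟨g w, hgW w⟩
  have hfpow : ∀ (j : ℕ) (w : W), ((f ^ j) w : V) = (g ^ j) w := by
    intro j
    induction j with
    | zero => intro w; rfl
    | succ j ih =>
      intro w
      rw [pow_succ, pow_succ, Equiv.Perm.mul_apply]
      exact ih (f w)
  have hf : f ^ r ^ 1 = 1 := by
    rw [pow_one]
    funext w
    apply Subtype.ext
    rw [hfpow, hgr]
    rfl
  have : Fintype W := Fintype.ofFinite W
  have h1 := Equiv.Perm.card_fixedPoints_modEq hf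
  have h2 : Fintype.card (Function.fixedPoints f) = 1 := by
    rw [Fintype.card_eq_one_iff]
    refine ⟨⟨(0 : W), ?_⟩, ?_⟩
    · apply Subtype.ext
      show g ((0 : W) : V) = 0
      rw [← hGa]
      exact map_zero G
    · rintro ⟨w, hw⟩
      apply Subtype.ext
      apply Subtype.ext
      have h3 : g (w : V) = w := congrArg Subtype.val hw
      exact hinf w h3 w.2
  rw [h2, ← Nat.card_eq_fintype_card, hcardW] at h1
  exact (Nat.modEq_iff_dvd' (Nat.one_le_pow _ _ Nat.card_pos)).1 h1.symm

theorem LRB : LRB_stmt := by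
  classical
  intro F V _ _ _ _ _ B h2 hB a k g hg r hr hrF hrH
  have hVfin : Finite V := Module.finite_of_finite F
  have hrp : Fact r.Prime := ⟨hr⟩
  set H := Subgroup.closure (Set.range fun i => g i * rf B a * (g i)⁻¹) with hH
  obtain ⟨x, hx⟩ := exists_prime_orderOf_dvd_card' (G := H) r hrH
  set S : Submodule F V := Submodule.span F (Set.range fun i => g i a) with hS
  have hHle : H ≤ SpG B := by
    rw [hH, Subgroup.closure_le]
    rintro _ ⟨i, rfl⟩
    exact (SpG B).mul_mem ((SpG B).mul_mem (hg i) (rf_mem hB a)) ((SpG B).inv_mem (hg i))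
  have hHS : ∀ h ∈ H, ∀ v, h v - v ∈ S := by
    intro h hh
    rw [hH] at hh
    induction hh using Subgroup.closure_induction with
    | mem h hm =>
      obtain ⟨i, rfl⟩ := hm
      intro v
      show (g i * rf B a * (g i)⁻¹) v - v ∈ S
      rw [rf_conj_sp (hg i)]
      by_cases h0 : B (g i a) (g i a) ≠ 0
      · rw [rf_apply h0, sub_sub_cancel_left]
        refine S.neg_mem (S.smul_mem _ ?_)
        rw [hS]
        exact Submodule.subset_span ⟨i, rfl⟩
      · have h3 : rf B (g i a) = 1 := by
          unfold rf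
          rw [dif_neg h0]
        rw [h3, Equiv.Perm.one_apply, sub_self]
        exact S.zero_mem
    | one =>
      intro v
      rw [Equiv.Perm.one_apply, sub_self]
      exact S.zero_mem
    | mul h h' _ _ ih ih' =>
      intro v
      have h4 : (h * h') v - v = (h (h' v) - h' v) + (h' v - v) := by
        rw [Equiv.Perm.mul_apply]
        abel
      rw [h4]
      exact S.add_mem (ih _) (ih' _)
    | inv h _ ih =>
      intro v
      have h5 := ih (h⁻¹ v)
      have h50 : h (h⁻¹ v) = v := by
        rw [← Equiv.Perm.mul_apply, mul_inv_cancel, Equiv.Perm.one_apply]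
      rw [h50] at h5
      have h6 : h⁻¹ v - v = -(v - h⁻¹ v) := by abel
      rw [h6]
      exact S.neg_mem h5
  have hx1 : (x : Equiv.Perm V) ≠ 1 := by
    intro h7
    have h8 : x = 1 := Subtype.ext h7
    rw [h8, orderOf_one] at hx
    exact hr.one_lt.ne hx
  have hxr : (x : Equiv.Perm V) ^ r = 1 := by
    have h9 : x ^ r = 1 := by
      rw [← hx]
      exact pow_orderOf_eq_one x
    have h10 := congrArg (Subtype.val) h9
    simpa using h10
  obtain ⟨i, hi1, hi2, hi3⟩ := LRB_order (x : Equiv.Perm V) (hHle x.2).1 r hr hrF hxr hx1 S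
    (hHS _ x.2)
  refine ⟨i, hi1, hi2.trans ?_, hi3⟩
  have h11 := finrank_range_le_card (R := F) (fun i => g i a)
  rw [Fintype.card_fin] at h11
  exact h11

end

end Pool.Agent.ORT
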